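import Pool.Agent.Helper61.HD.TorD

/-!
# The `L_1` Bernstein constant of the step hyperbolic crosses

For all `d ≥ 2` and `r > 0` the order of `b(n, r, L_1)` is `2 ^ (r n)`.
-/

open MeasureTheory

namespace Pool.Agent.Results.MP_cebbc5_an.FullOrder

/-- The dyadic block `ρ(s)`: the `k` with `⌊2 ^ (s j - 1)⌋ ≤ |k j| < 2 ^ (s j)` for all `j`. -/
def block {d : ℕ} (s : Fin d → ℕ) : Set (Fin d → ℤ) :=
  {k | ∀ j, ⌊(2:ℝ) ^ ((s j : ℤ) - 1)⌋ ≤ |k j| ∧ |k j| < 2 ^ s j}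

/-- The step hyperbolic cross `Q_n` in dimension `d`. -/
def cross (d n : ℕ) : Set (Fin d → ℤ) :=
  {k | ∃ s : Fin d → ℕ, ∑ j, s j ≤ n ∧ k ∈ block s}

/-- The trigonometric polynomial with coefficients `c`. -/
noncomputable def poly {d : ℕ} (c : (Fin d → ℤ) →₀ ℂ) (x : Fin d → ℝ) : ℂ :=
  ∑ k ∈ c.support, c k * Complex.exp (Complex.I * ∑ j, (k j : ℂ) * (x j : ℂ))

/-- The number `(ik)^r`, with `(i0)^r = 0`. -/
noncomputable def weyl (r : ℝ) (k : ℤ) : ℂ :=
  if k = 0 then 0 else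
    ((|(k : ℝ)| ^ r : ℝ) : ℂ) * Complex.exp (Complex.I * (r * Real.pi * (k.sign : ℂ) / 2))

/-- The mixed Weyl derivative `f^(r,…,r)` of the polynomial `f` with coefficients `c`. -/
noncomputable def mixedDeriv {d : ℕ} (r : ℝ) (c : (Fin d → ℤ) →₀ ℂ) (x : Fin d → ℝ) : ℂ :=
  ∑ k ∈ c.support, c k * (∏ j, weyl r (k j)) *
    Complex.exp (Complex.I * ∑ j, (k j : ℂ) * (x j : ℂ))

/-- The `L_1` norm on `[0, 2π)^d` with respect to the normalized Lebesgue measure. -/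
noncomputable def norm1 {d : ℕ} (f : (Fin d → ℝ) → ℂ) : ℝ :=
  ((2 * Real.pi) ^ d)⁻¹ *
    ∫ x in Set.pi Set.univ (fun _ : Fin d => Set.Ico (0:ℝ) (2 * Real.pi)), ‖f x‖

/-- The Bernstein constant `b(n, r, L_1)` in dimension `d`: the supremum (in `[0, ∞]`) of the
quotients of the norms of `f^(r,…,r)` and of `f`, over the nonzero `f` with frequencies
in `Q_n`. -/
noncomputable def b (d n : ℕ) (r : ℝ) : ENNReal :=
  ⨆ (c : (Fin d → ℤ) →₀ ℂ) (_ : (c.support : Set (Fin d → ℤ)) ⊆ cross d n) (_ : poly c ≠ 0),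
    ENNReal.ofReal (norm1 (mixedDeriv r c) / norm1 (poly c))

lemma floor_eq (s : ℕ) : ⌊(2:ℝ) ^ ((s : ℤ) - 1)⌋ = (2:ℤ) ^ s / 2 := by
  cases s with
  | zero =>
    simp only [Nat.cast_zero, zero_sub, pow_zero]
    rw [zpow_neg_one]
    norm_num
  | succ t =>
    have e1 : (((t + 1 : ℕ) : ℤ) - 1) = (t : ℤ) := by push_cast; ring
    rw [e1, zpow_natCast]
    have e2 : ((2:ℝ) ^ t) = (((2:ℤ) ^ t : ℤ) : ℝ) := by push_cast; rfl
    rw [e2, Int.floor_intCast, pow_succ, Int.mul_ediv_cancel _ (by norm_num)]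

lemma cross_iff {d n : ℕ} (k : Fin d → ℤ) : k ∈ cross d n ↔ HC.cross n k := by
  unfold cross HC.cross block HC.inBlock
  simp only [Set.mem_ofPred_eq, floor_eq]

lemma weyl_eq {r : ℝ} (hr : 0 < r) (k : ℤ) : weyl r k = HC.wd r k := by
  unfold weyl
  split_ifs with h
  · rw [h, HC.wd_zero hr]
  · unfold HC.wd
    congr 3
    have : (((SignType.sign (k:ℝ) : ℝ)) : ℂ) = (k.sign : ℂ) := by
      rcases lt_or_gt_of_ne h with h0 | h0
      · rw [Int.sign_eq_neg_one_of_neg h0, sign_neg (by exact_mod_cast h0)]; simp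
      · rw [Int.sign_eq_one_of_pos h0, sign_pos (by exact_mod_cast h0)]; simp
    push_cast
    rw [this]

lemma exp_eq {d : ℕ} (k : Fin d → ℤ) (x : Fin d → ℝ) :
    Complex.exp (Complex.I * ∑ j, (k j : ℂ) * (x j : ℂ))
      = HC.et k (fun j => (x j : AddCircle (2 * Real.pi))) := by
  unfold HC.et
  rw [Finset.mul_sum, Complex.exp_sum]
  refine Finset.prod_congr rfl fun j _ => ?_
  rw [fourier_coe_apply]
  congr 1
  have hpi : (Real.pi : ℂ) ≠ 0 := by exact_mod_cast Real.pi_ne_zero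
  push_cast
  field_simp

lemma norm1_eq {d : ℕ} (S : Finset (Fin d → ℤ)) (c : (Fin d → ℤ) → ℂ) :
    norm1 (fun x => ∑ k ∈ S, c k * Complex.exp (Complex.I * ∑ j, (k j : ℂ) * (x j : ℂ)))
      = ((2 * Real.pi) ^ d)⁻¹ * ∫ t, ‖∑ k ∈ S, c k * HC.et k t‖ := by
  unfold norm1
  congr 1
  rw [← HC.box_int (T := 2 * Real.pi) (fun t => ‖∑ k ∈ S, c k * HC.et k t‖)
    ((continuous_finsetSum _ fun k _ => continuous_const.mul (HC.et_cont k)).norm)]
  simp only [exp_eq]

lemma norm1_poly {d : ℕ} (c : (Fin d → ℤ) →₀ ℂ) :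
    norm1 (poly c) = ((2 * Real.pi) ^ d)⁻¹ * ∫ t, ‖∑ k ∈ c.support, c k * HC.et k t‖ :=
  norm1_eq c.support c

lemma norm1_mixed {d : ℕ} {r : ℝ} (hr : 0 < r) (c : (Fin d → ℤ) →₀ ℂ) :
    norm1 (mixedDeriv r c)
      = ((2 * Real.pi) ^ d)⁻¹ * ∫ t, ‖∑ k ∈ c.support, c k * (∏ j, HC.wd r (k j)) * HC.et k t‖ := by
  have := norm1_eq c.support (fun k => c k * (∏ j, HC.wd r (k j)))
  rw [← this]
  unfold mixedDeriv
  simp only [weyl_eq hr]

lemma norm1_nonneg {d : ℕ} (f : (Fin d → ℝ) → ℂ) : 0 ≤ norm1 f := by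
  unfold norm1
  have := Real.pi_pos
  exact mul_nonneg (by positivity) (integral_nonneg fun x => norm_nonneg _)

/-- the upper bound -/
theorem upper {d : ℕ} (hd : 0 < d) {r : ℝ} (hr : 0 < r) : ∃ A : ℝ, 0 < A ∧ ∀ n : ℕ,
    b d n r ≤ ENNReal.ofReal (A * (2:ℝ) ^ (r * n)) := by
  obtain ⟨C, hC, h⟩ := HD.torusD hd hr
  refine ⟨C + 1, by positivity, ?_⟩
  intro n
  unfold b
  refine iSup_le fun c => iSup_le fun hc => iSup_le fun _ => ?_
  refine ENNReal.ofReal_le_ofReal ?_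
  have hR : ((2:ℝ) ^ r) ^ n = (2:ℝ) ^ (r * n) := by
    rw [← Real.rpow_natCast, ← Real.rpow_mul (by norm_num)]
  have hB : C * ((2:ℝ) ^ r) ^ n ≤ (C + 1) * (2:ℝ) ^ (r * n) := by
    rw [hR]
    refine mul_le_mul_of_nonneg_right (by linarith) (by positivity)
  have h1 := h n c.support c (fun k hk => (cross_iff k).1 (hc hk))
  rcases (norm1_nonneg (poly c)).eq_or_lt with h0 | h0
  · rw [← h0, div_zero]; positivity
  · rw [div_le_iff₀ h0]
    refine le_trans ?_ (mul_le_mul_of_nonneg_right hB h0.le)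
    rw [norm1_mixed hr, norm1_poly]
    have hpi := Real.pi_pos
    have h2 := mul_le_mul_of_nonneg_left h1 (by positivity : 0 ≤ ((2 * Real.pi) ^ d)⁻¹)
    refine h2.trans (le_of_eq ?_)
    ring

/-- the lower bound -/
theorem lower (m : ℕ) {r : ℝ} (hr : 0 < r) (n : ℕ) (hn : m + 2 ≤ n) :
    ENNReal.ofReal ((2:ℝ) ^ (-(r * (m + 2))) * (2:ℝ) ^ (r * n)) ≤ b (m+2) n r := by
  set k : Fin (m+2) → ℤ := Fin.cons (2 ^ (n - (m+2))) (fun _ => 1) with hk
  set c : (Fin (m+2) → ℤ) →₀ ℂ := Finsupp.single k 1 with hc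
  have hsupp : c.support = {k} := Finsupp.support_single_ne_zero k one_ne_zero
  have hck : c k = 1 := by rw [hc, Finsupp.single_eq_same]
  have hcross : (c.support : Set (Fin (m+2) → ℤ)) ⊆ cross (m+2) n := by
    rw [hsupp, Finset.coe_singleton, Set.singleton_subset_iff, cross_iff]
    refine ⟨Fin.cons (n - (m+2) + 1) (fun _ => 1), ?_, ?_⟩
    · rw [Fin.sum_univ_succ]
      simp only [Fin.cons_zero, Fin.cons_succ, Finset.sum_const, Finset.card_univ, Fintype.card_fin,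
        smul_eq_mul, mul_one]
      omega
    · intro j
      refine Fin.cases ?_ (fun i => ?_) j
      · simp only [hk, Fin.cons_zero]
        unfold HC.inBlock
        rw [pow_succ, Int.mul_ediv_cancel _ (by norm_num), abs_of_pos (by positivity)]
        have : (0:ℤ) < 2 ^ (n - (m+2)) := by positivity
        exact ⟨le_rfl, by linarith⟩
      · simp only [hk, Fin.cons_succ]
        unfold HC.inBlock
        norm_num
  have hpoly : ∀ x, ‖poly c x‖ = 1 := by
    intro x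
    unfold poly
    rw [hsupp, Finset.sum_singleton, hck, one_mul]
    have : (∑ j, (k j : ℂ) * (x j : ℂ)) = ((∑ j, (k j : ℝ) * x j : ℝ) : ℂ) := by push_cast; rfl
    rw [this, mul_comm, Complex.norm_exp_ofReal_mul_I]
  have hne : poly c ≠ 0 := by
    intro h
    have := hpoly 0
    rw [h] at this
    simp at this
  have hwn : ∀ l : ℤ, 0 < l → ‖weyl r l‖ = (l:ℝ) ^ r := by
    intro l hl
    unfold weyl
    rw [if_neg hl.ne', norm_mul, Complex.norm_real, Real.norm_eq_abs,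
      abs_of_nonneg (Real.rpow_nonneg (abs_nonneg _) _)]
    have e1 : Complex.I * (r * Real.pi * (l.sign : ℂ) / 2)
        = ((r * Real.pi * (l.sign : ℝ) / 2 : ℝ) : ℂ) * Complex.I := by push_cast; ring
    rw [e1, Complex.norm_exp_ofReal_mul_I, mul_one, abs_of_pos (by exact_mod_cast hl)]
  have hmix : ∀ x, ‖mixedDeriv r c x‖ = ((2:ℝ) ^ (n - (m+2))) ^ r := by
    intro x
    unfold mixedDeriv
    rw [hsupp, Finset.sum_singleton, hck, one_mul]
    have : (∑ j, (k j : ℂ) * (x j : ℂ)) = ((∑ j, (k j : ℝ) * x j : ℝ) : ℂ) := by push_cast; rfl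
    rw [this, norm_mul, mul_comm Complex.I, Complex.norm_exp_ofReal_mul_I, mul_one, norm_prod,
      Fin.prod_univ_succ]
    simp only [hk, Fin.cons_zero, Fin.cons_succ]
    rw [hwn _ (by positivity), hwn 1 (by norm_num)]
    push_cast
    rw [Real.one_rpow, Finset.prod_const_one, mul_one]
  have hvol : norm1 (poly c) = 1 := by
    unfold norm1
    simp only [hpoly]
    rw [setIntegral_const, smul_eq_mul, mul_one]
    have : volume.real (Set.pi Set.univ (fun _ : Fin (m+2) => Set.Ico (0:ℝ) (2 * Real.pi)))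
        = (2 * Real.pi) ^ (m+2) := by
      unfold Measure.real
      rw [Real.volume_pi_Ico]
      simp only [sub_zero, Finset.prod_const, Finset.card_univ, Fintype.card_fin]
      rw [ENNReal.toReal_pow, ENNReal.toReal_ofReal Real.two_pi_pos.le]
    rw [this]
    have := Real.pi_pos
    field_simp
  have hvol2 : norm1 (mixedDeriv r c) = ((2:ℝ) ^ (n - (m+2))) ^ r := by
    have e1 : norm1 (mixedDeriv r c) = ((2:ℝ) ^ (n - (m+2))) ^ r * norm1 (poly c) := by
      unfold norm1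
      simp only [hpoly, hmix, setIntegral_const, smul_eq_mul]
      ring
    rw [e1, hvol, mul_one]
  unfold b
  refine le_iSup_of_le c (le_iSup_of_le hcross (le_iSup_of_le hne ?_))
  refine ENNReal.ofReal_le_ofReal (le_of_eq ?_)
  rw [hvol, hvol2, div_one, ← Real.rpow_natCast, ← Real.rpow_mul (by norm_num),
    ← Real.rpow_add (by norm_num)]
  congr 1
  rw [Nat.cast_sub hn]
  push_cast
  ring

/-- For all `d ≥ 2` and `r > 0` there are positive constants `a, A` such that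
`a 2^(rn) ≤ b(n, r, L_1) ≤ A 2^(rn)` for all `n ≥ d`. -/
theorem result (d : ℕ) (hd : 2 ≤ d) (r : ℝ) (hr : 0 < r) :
    ∃ a A : ℝ, 0 < a ∧ 0 < A ∧ ∀ n : ℕ, d ≤ n →
      ENNReal.ofReal (a * (2:ℝ) ^ (r * n)) ≤ b d n r ∧
      b d n r ≤ ENNReal.ofReal (A * (2:ℝ) ^ (r * n)) := by
  obtain ⟨m, rfl⟩ : ∃ m, d = m + 2 := ⟨d - 2, by omega⟩
  obtain ⟨A, hA, h⟩ := upper (d := m + 2) (by omega) hr
  exact ⟨(2:ℝ) ^ (-(r * (m + 2))), A, by positivity, hA, fun n hn => ⟨lower m hr n hn, h n⟩⟩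

end Pool.Agent.Results.MP_cebbc5_an.FullOrder
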